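import Mathlib

set_option autoImplicit false

namespace Pool.Agent.Results.MP_69f3e4_an.Regular

open Set Topology Filter

abbrev P : Type := EuclideanSpace ℝ (Fin 2)

/-- the achievement set: all subsums -/
def E (v : ℕ → P) : Set P := range fun ε : ℕ → Bool => ∑' n, if ε n then v n else 0

lemma term_le (v : ℕ → P) (ε : ℕ → Bool) (n : ℕ) : ‖(if ε n then v n else 0 : P)‖ ≤ ‖v n‖ := by
  split_ifs <;> simp

lemma E_compact {v : ℕ → P} (hv : Summable fun n => ‖v n‖) : IsCompact (E v) := by
  apply isCompact_range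
  refine continuous_tsum (fun n => ?_) hv fun n ε => term_le v ε n
  exact (continuous_of_discreteTopology (f := fun b : Bool => if b then v n else 0)).comp
    (continuous_apply n)

lemma summ {v : ℕ → P} (hv : Summable fun n => ‖v n‖) (ε : ℕ → Bool) :
    Summable fun n => (if ε n then v n else 0 : P) := .of_norm_bounded hv (term_le v ε)

/-- partial sums -/
noncomputable def s (v : ℕ → P) (m : ℕ) (ε : ℕ → Bool) : P :=
  ∑ n ∈ Finset.range m, if ε n then v n else 0

lemma split {v : ℕ → P} (hv : Summable fun n => ‖v n‖) (m : ℕ) (ε : ℕ → Bool) :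
    (∑' n, if ε n then v n else 0) =
      s v m ε + ∑' n, if ε (n + m) then v (n + m) else 0 :=
  ((summ hv ε).sum_add_tsum_nat_add m).symm

lemma sub {v : ℕ → P} (hv : Summable fun n => ‖v n‖) (m : ℕ) (ε : ℕ → Bool) {y : P}
    (hy : y ∈ E fun n => v (n + m)) : s v m ε + y ∈ E v := by
  obtain ⟨δ, rfl⟩ := hy
  refine ⟨fun n => if n < m then ε n else δ (n - m), ?_⟩
  simp only
  rw [split hv m]
  congr 1
  · exact Finset.sum_congr rfl fun n hn => by simp [Finset.mem_range.1 hn]
  · simp

lemma s_finite (v : ℕ → P) (m : ℕ) : (range (s v m)).Finite := by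
  refine (finite_range fun δ : Fin m → Bool => ∑ n : Fin m, if δ n then v n else 0).subset ?_
  rintro _ ⟨ε, rfl⟩
  exact ⟨fun n => ε n, by unfold s; rw [Finset.sum_range]⟩

lemma tail_int {v : ℕ → P} (hv : Summable fun n => ‖v n‖) (h : (interior (E v)).Nonempty)
    (m : ℕ) : (interior (E fun n => v (n + m))).Nonempty := by
  have hv' : Summable fun n => ‖v (n + m)‖ := (summable_nat_add_iff m).2 hv
  by_contra hn
  rw [not_nonempty_iff_eq_empty] at hn
  have h1 : IsMeagre (⋃ a ∈ range (s v m), (fun y => a + y) '' E fun n => v (n + m)) := by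
    refine isMeagre_biUnion (s_finite v m).countable fun a _ => IsNowhereDense.isMeagre ?_
    have hc : IsClosed ((fun y => a + y) '' E fun n => v (n + m)) :=
      ((E_compact hv').image (by fun_prop)).isClosed
    rw [hc.isNowhereDense_iff]
    have := (Homeomorph.addLeft a).image_interior (E fun n => v (n + m))
    rw [hn, image_empty] at this
    exact this.symm
  have h2 : IsMeagre (interior (E v)) := by
    refine h1.mono (interior_subset.trans ?_)
    rintro _ ⟨ε, rfl⟩
    simp only [mem_iUnion]
    exact ⟨s v m ε, ⟨ε, rfl⟩, _, ⟨fun n => ε (n + m), rfl⟩, (split hv m ε).symm⟩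
  exact not_isMeagre_of_isOpen isOpen_interior h h2

theorem result (v : ℕ → P) (hv : Summable fun n => ‖v n‖) :
    E v = closure (interior (E v)) ∨ interior (closure (E v)) = ∅ := by
  have hc := (E_compact hv).isClosed
  rw [hc.closure_eq]
  by_cases h : interior (E v) = ∅
  · exact Or.inr h
  left
  refine Subset.antisymm ?_ (closure_minimal interior_subset hc)
  rintro _ ⟨ε, rfl⟩
  choose y hy using tail_int hv (nonempty_iff_ne_empty.2 h)
  have h1 : Tendsto (fun m => s v m ε) atTop (𝓝 (∑' n, if ε n then v n else 0)) :=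
    (summ hv ε).hasSum.tendsto_sum_nat
  have h2 : Tendsto y atTop (𝓝 0) := by
    refine squeeze_zero_norm (fun m => ?_) (tendsto_sum_nat_add fun n => ‖v n‖)
    obtain ⟨δ, hδ⟩ := interior_subset (hy m)
    rw [← hδ]
    exact tsum_of_norm_bounded ((summable_nat_add_iff m).2 hv).hasSum (term_le _ δ)
  refine mem_closure_of_tendsto (by simpa using h1.add h2) (Eventually.of_forall fun m => ?_)
  have h3 : s v m ε + y m ∈ (fun z => s v m ε + z) '' interior (E fun n => v (n + m)) :=
    ⟨y m, hy m, rfl⟩
  refine interior_maximal ?_ ((isOpenMap_add_left _) _ isOpen_interior) h3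
  rintro _ ⟨z, hz, rfl⟩
  exact sub hv m ε (interior_subset hz)

end Pool.Agent.Results.MP_69f3e4_an.Regular
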